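import Mathlib

/-!
# The cells of the vertices of the threads

A thread of class `k` which starts at the obstacle `(x, y)` of the lattice
`L = {(x, y) : R ∣ x - c y}` has its vertex number `t` (`1 ≤ t ≤ 2 l`) in the cell
`(x + (t / 2) (R - 2 t₀), y - R + s₀ - ((t - 1) / 2) (R - 2 s₀))`, where `(t₀, -s₀)` is the vector of
the class.  All these cells are different.
-/

set_option autoImplicit false

namespace Pool.Agent.Helper49.DG3

/-- the column of the vertex number `t` of a thread -/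
def colT (R t₀ x : ℤ) (t : ℕ) : ℤ := x + ((t / 2 : ℕ) : ℤ) * (R - 2 * t₀)

/-- the row of the vertex number `t` of a thread -/
def rowT (R s₀ y : ℤ) (t : ℕ) : ℤ := y - R + s₀ - (((t - 1) / 2 : ℕ) : ℤ) * (R - 2 * s₀)

/-- the ordinate of the lower end of the column strip of the vertex number `t` -/
def baseV (R s₀ y : ℤ) (t : ℕ) : ℤ := y - R - ((t / 2 : ℕ) : ℤ) * (R - 2 * s₀)

/-- the abscissa of the left end of the row strip of the vertex number `t` -/
def baseH (R t₀ x : ℤ) (t : ℕ) : ℤ := x - t₀ + (((t - 1) / 2 : ℕ) : ℤ) * (R - 2 * t₀)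

theorem rowT_odd {R s₀ y : ℤ} {t : ℕ} (h : t % 2 = 1) :
    rowT R s₀ y t = baseV R s₀ y t + s₀ := by
  unfold rowT baseV
  rw [show (t - 1) / 2 = t / 2 by omega]
  ring

theorem rowT_even {R s₀ y : ℤ} {t : ℕ} (h0 : 1 ≤ t) (h : t % 2 = 0) :
    rowT R s₀ y t = baseV R s₀ y t + (R - s₀) := by
  unfold rowT baseV
  rw [show t / 2 = (t - 1) / 2 + 1 by omega]
  push_cast
  ring

theorem colT_odd {R t₀ x : ℤ} {t : ℕ} (h : t % 2 = 1) :
    colT R t₀ x t = baseH R t₀ x t + t₀ := by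
  unfold colT baseH
  rw [show (t - 1) / 2 = t / 2 by omega]
  ring

theorem colT_even {R t₀ x : ℤ} {t : ℕ} (h0 : 1 ≤ t) (h : t % 2 = 0) :
    colT R t₀ x t = baseH R t₀ x t + (R - t₀) := by
  unfold colT baseH
  rw [show t / 2 = (t - 1) / 2 + 1 by omega]
  push_cast
  ring

/-- the lower end of the column strip is in the lattice -/
theorem dvd_baseV {R c t₀ s₀ x y : ℤ} (hv : R ∣ t₀ + c * s₀) (h : R ∣ x - c * y) (t : ℕ) :
    R ∣ colT R t₀ x t - c * baseV R s₀ y t := by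
  obtain ⟨u, hu⟩ := hv
  obtain ⟨w, hw⟩ := h
  refine ⟨w + c + ((t / 2 : ℕ) : ℤ) * (1 + c) - 2 * ((t / 2 : ℕ) : ℤ) * u, ?_⟩
  unfold colT baseV
  linear_combination hw - 2 * ((t / 2 : ℕ) : ℤ) * hu

/-- the left end of the row strip is in the lattice -/
theorem dvd_baseH {R c t₀ s₀ x y : ℤ} (hv : R ∣ t₀ + c * s₀) (h : R ∣ x - c * y) (t : ℕ) :
    R ∣ baseH R t₀ x t - c * rowT R s₀ y t := by
  obtain ⟨u, hu⟩ := hv
  obtain ⟨w, hw⟩ := h
  refine ⟨w + c + (((t - 1) / 2 : ℕ) : ℤ) * (1 + c) - (2 * (((t - 1) / 2 : ℕ) : ℤ) + 1) * u, ?_⟩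
  unfold baseH rowT
  linear_combination hw - (2 * (((t - 1) / 2 : ℕ) : ℤ) + 1) * hu

/-- two points of the lattice in one column -/
theorem dvd_col {R c i j j' : ℤ} (hc : R ∣ c * c - 1) (h : R ∣ i - c * j)
    (h' : R ∣ i - c * j') : R ∣ j - j' := by
  obtain ⟨u, hu⟩ := hc
  obtain ⟨w, hw⟩ := h
  obtain ⟨w', hw'⟩ := h'
  refine ⟨c * (w' - w) - u * (j - j'), ?_⟩
  linear_combination (-c) * (hw - hw') - (j - j') * hu

/-- two points of the lattice in one row -/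
theorem dvd_row {R c i i' j : ℤ} (h : R ∣ i - c * j) (h' : R ∣ i' - c * j) : R ∣ i - i' := by
  have := dvd_sub h h'
  rwa [show i - c * j - (i' - c * j) = i - i' by ring] at this

theorem eq_of_dvd_lt {R a : ℤ} (h : R ∣ a) (h1 : -R < a) (h2 : a < R) : a = 0 := by
  obtain ⟨m, rfl⟩ := h
  have hR : 0 < R := by linarith
  have h3 : m < 1 := by
    by_contra hcon
    push Not at hcon
    nlinarith
  have h4 : -1 < m := by
    by_contra hcon
    push Not at hcon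
    nlinarith
  have : m = 0 := by omega
  rw [this, mul_zero]

/-- the number of the strip is determined by its column -/
theorem slab_inj {W x x' : ℤ} {l m m' : ℕ} (hW : 0 < W) (hx : (x / W) % (l + 1) = 0)
    (hx' : (x' / W) % (l + 1) = 0) (hm : m ≤ l) (hm' : m' ≤ l)
    (h : x + m * W = x' + m' * W) : x = x' ∧ m = m' := by
  have e1 : (x + m * W) / W = x / W + m := Int.add_mul_ediv_right _ _ hW.ne'
  have e2 : (x' + m' * W) / W = x' / W + m' := Int.add_mul_ediv_right _ _ hW.ne'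
  have e3 : x / W + m = x' / W + m' := by rw [← e1, ← e2, h]
  have e4 : ((m : ℤ) - m') % (l + 1) = 0 := by
    have : (m : ℤ) - m' = x' / W - x / W := by linarith
    rw [this, Int.sub_emod, hx, hx']
    simp
  have e5 : (m : ℤ) - m' = 0 := by
    refine eq_of_dvd_lt (R := (l : ℤ) + 1) (Int.dvd_of_emod_eq_zero e4) ?_ ?_ <;> omega
  have e6 : m = m' := by omega
  subst e6
  exact ⟨by linarith, rfl⟩

/-- **All the cells are different.** -/
theorem cell_inj {R c : ℤ} {tt ss : ℕ → ℤ} {K : Set ℕ} {l : ℕ} (hc : R ∣ c * c - 1)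
    (ht : ∀ k ∈ K, 2 * tt k < R) (hs : ∀ k ∈ K, 0 < ss k ∧ 2 * ss k < R)
    (hv : ∀ k ∈ K, R ∣ tt k + c * ss k) (hinj : ∀ k ∈ K, ∀ k' ∈ K, ss k = ss k' → k = k')
    {k k' : ℕ} (hk : k ∈ K) (hk' : k' ∈ K) {x y x' y' : ℤ} (hL : R ∣ x - c * y)
    (hL' : R ∣ x' - c * y') (hx : (x / (R - 2 * tt k)) % (l + 1) = 0)
    (hx' : (x' / (R - 2 * tt k')) % (l + 1) = 0) {t t' : ℕ} (h1 : 1 ≤ t) (h2 : t ≤ 2 * l + 1)
    (h1' : 1 ≤ t') (h2' : t' ≤ 2 * l + 1) (hcol : colT R (tt k) x t = colT R (tt k') x' t')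
    (hrow : rowT R (ss k) y t = rowT R (ss k') y' t') :
    k = k' ∧ x = x' ∧ y = y' ∧ t = t' := by
  obtain ⟨s1, s2⟩ := hs k hk
  obtain ⟨s1', s2'⟩ := hs k' hk'
  have hR : 0 < R := by linarith
  have hP := dvd_baseV (hv k hk) hL t
  have hP' := dvd_baseV (hv k' hk') hL' t'
  rw [← hcol] at hP'
  have hd := dvd_col hc hP hP'
  -- the offsets
  have o1 : rowT R (ss k) y t - baseV R (ss k) y t = ss k ∧ t % 2 = 1 ∨
      rowT R (ss k) y t - baseV R (ss k) y t = R - ss k ∧ t % 2 = 0 := by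
    rcases Nat.mod_two_eq_zero_or_one t with h | h
    · right
      exact ⟨by rw [rowT_even h1 h]; ring, h⟩
    · left
      exact ⟨by rw [rowT_odd h]; ring, h⟩
  have o2 : rowT R (ss k') y' t' - baseV R (ss k') y' t' = ss k' ∧ t' % 2 = 1 ∨
      rowT R (ss k') y' t' - baseV R (ss k') y' t' = R - ss k' ∧ t' % 2 = 0 := by
    rcases Nat.mod_two_eq_zero_or_one t' with h | h
    · right
      exact ⟨by rw [rowT_even h1' h]; ring, h⟩
    · left
      exact ⟨by rw [rowT_odd h]; ring, h⟩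
  have hb : baseV R (ss k) y t = baseV R (ss k') y' t' := by
    have : baseV R (ss k) y t - baseV R (ss k') y' t' = 0 := by
      refine eq_of_dvd_lt hd ?_ ?_
      · rcases o1 with ⟨o1, -⟩ | ⟨o1, -⟩ <;> rcases o2 with ⟨o2, -⟩ | ⟨o2, -⟩ <;> linarith
      · rcases o1 with ⟨o1, -⟩ | ⟨o1, -⟩ <;> rcases o2 with ⟨o2, -⟩ | ⟨o2, -⟩ <;> linarith
    linarith
  have hkk : k = k' ∧ t % 2 = t' % 2 := by
    rcases o1 with ⟨o1, p1⟩ | ⟨o1, p1⟩ <;> rcases o2 with ⟨o2, p2⟩ | ⟨o2, p2⟩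
    · exact ⟨hinj k hk k' hk' (by linarith), by rw [p1, p2]⟩
    · exfalso; linarith
    · exfalso; linarith
    · exact ⟨hinj k hk k' hk' (by linarith), by rw [p1, p2]⟩
  obtain ⟨rfl, hpar⟩ := hkk
  have hW : 0 < R - 2 * tt k := by linarith [ht k hk]
  obtain ⟨ex, em⟩ := slab_inj hW hx hx' (by omega) (by omega) hcol
  have et : t = t' := by omega
  subst et
  refine ⟨rfl, ex, ?_, rfl⟩
  unfold baseV at hb
  linarith

end Pool.Agent.Helper49.DG3
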