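import Pool.Agent.Helper49.DG3.DkNum
import Pool.Agent.Helper84.DG3.Reg

/-!
# Threads: the neighbours of the good vertices
-/

set_option autoImplicit false

namespace Pool.Agent.Helper58.DG3

open Pool.Agent.Helper18.RAC
open Pool.Agent.Helper82.DG (NE)
open Pool.Agent.Helper84.DG3 (cell gx_le gy_le)
open Pool.Agent.Helper49.DG3

variable {V : Type*} {H : SimpleGraph V} {X Y : V → ℝ} {E F : ℝ} {κ : GX → V} {π : Par}

/-- the positions of the vertices of the threads -/
structure TPos (X Y : V → ℝ) (κ : GX → V) (π : Par) : Prop where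
  mid : ∀ k x y t, π.St k x y → 1 ≤ t → t ≤ 2 * π.l →
    InC X Y κ (tcell π k x y t).1 (tcell π k x y t).2 (κ (.v (.T k x y t)))
  st : ∀ k x y, π.St k x y → InC X Y κ x y (κ (.v (.T k x y 0)))
  en : ∀ k x y, π.St k x y →
    InC X Y κ (π.pp k x y π.l).1 (π.pp k x y π.l).2 (κ (.v (.T k x y (2 * π.l + 1))))

/-! ### Cells -/

section

variable {i j i' j' : ℤ} {p q v w : V}

theorem Inn.le_col (hn : Net H X Y E F κ π) (h : Inn π i j) (h' : Inn π i' j')
    (hp : InC X Y κ i j p) (hq : InC X Y κ i' j' q) (hX : X p ≤ X q) : i ≤ i' := by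
  by_contra hcon
  push Not at hcon
  obtain ⟨a1, a2, a3, a4⟩ := h
  obtain ⟨b1, b2, b3, b4⟩ := h'
  have := gx_le hn (i := i' + 1) (j := i) (by omega) (by omega) (by omega)
  linarith [hp.1, hq.2.1]

theorem Inn.le_row (hn : Net H X Y E F κ π) (h : Inn π i j) (h' : Inn π i' j')
    (hp : InC X Y κ i j p) (hq : InC X Y κ i' j' q) (hY : Y p ≤ Y q) : j ≤ j' := by
  by_contra hcon
  push Not at hcon
  obtain ⟨a1, a2, a3, a4⟩ := h
  obtain ⟨b1, b2, b3, b4⟩ := h'
  have := gy_le hn (i := j' + 1) (j := j) (by omega) (by omega) (by omega)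
  linarith [hp.2.2.1, hq.2.2.2]

theorem Inn.uniq (hn : Net H X Y E F κ π) (h : Inn π i j) (h' : Inn π i' j')
    (hp : InC X Y κ i j v) (hq : InC X Y κ i' j' v) : i = i' ∧ j = j' :=
  ⟨le_antisymm (h.le_col hn h' hp hq le_rfl) (h'.le_col hn h hq hp le_rfl),
    le_antisymm (h.le_row hn h' hp hq le_rfl) (h'.le_row hn h hq hp le_rfl)⟩

theorem Inn.mono_x (hn : Net H X Y E F κ π) (h : Inn π i j) {a b : ℤ} (ha : 0 ≤ a) (hab : a ≤ b)
    (hb : b ≤ i + π.R + 1) : gX X κ a ≤ gX X κ b := by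
  obtain ⟨a1, a2, a3, a4⟩ := h
  exact gx_le hn ha hab (by omega)

theorem Inn.mono_y (hn : Net H X Y E F κ π) (h : Inn π i j) {a b : ℤ} (ha : 0 ≤ a) (hab : a ≤ b)
    (hb : b ≤ j + π.R + 1) : gY Y κ a ≤ gY Y κ b := by
  obtain ⟨a1, a2, a3, a4⟩ := h
  exact gy_le hn ha hab (by omega)

/-- no line passes through an open cell -/
theorem Inn.not_line (hn : Net H X Y E F κ π) (h : Inn π i j) (h' : Inn π i' j')
    (hq : InC X Y κ i' j' q) (hX : X q = gX X κ i ∨ X q = gX X κ (i + 1)) : False := by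
  obtain ⟨b1, b2, -, -⟩ := hq
  have key : ∀ a : ℤ, (a = i ∨ a = i + 1) → X q = gX X κ a → False := by
    intro a ha e
    obtain ⟨c1, c2, c3, c4⟩ := h
    obtain ⟨d1, d2, d3, d4⟩ := h'
    rcases lt_or_ge a (i' + 1) with h1 | h1
    · have := gx_le hn (i := a) (j := i') (by omega) (by omega) (by omega)
      linarith
    · have := gx_le hn (i := i' + 1) (j := a) (by omega) (by omega) (by omega)
      linarith
  rcases hX with e | e
  · exact key i (Or.inl rfl) e
  · exact key (i + 1) (Or.inr rfl) e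

/-- the neighbours of a vertex in an open cell -/
theorem Inn.exit (hn : Net H X Y E F κ π) (h : Inn π i j) (hp : H.Adj p v)
    (hc : InC X Y κ i j p) : InC X Y κ i j v ∨
      ((X v = gX X κ i ∨ X v = gX X κ (i + 1)) ∧ (Y v = gY Y κ j ∨ Y v = gY Y κ (j + 1))) ∨
      X v = X p ∨ Y v = Y p := by
  obtain ⟨a1, a2, a3, a4⟩ := h
  obtain ⟨c1, c2, c3, c4⟩ := hc
  rcases (cell hn (i := i) (j := j) (by omega) (by omega) (by omega)).through hn.hd hp
    (s := 0) le_rfl one_pos (by simpa using c1) (by simpa using c2) (by simpa using c3)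
    (by simpa using c4) with e | ⟨-, e⟩ | e
  · exact Or.inl e
  · exact Or.inr (Or.inl e)
  · exact Or.inr (Or.inr e)

/-- a link between two cells of one row is horizontal -/
theorem Inn.align_row (hn : Net H X Y E F κ π) (h : Inn π i j) (h' : Inn π i' j')
    (hp : InC X Y κ i j p) (hw : InC X Y κ i' j' w) (hne : i ≠ i') (hadj : H.Adj p w) :
    Y w = Y p := by
  rcases h.exit hn hadj hp with e | ⟨e, -⟩ | e | e
  · exact absurd (h.uniq hn h' e hw).1 hne
  · exact (h.not_line hn h' hw e).elim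
  · exact absurd (le_antisymm (h.le_col hn h' hp hw e.ge) (h'.le_col hn h hw hp e.le)) hne
  · exact e

/-- a link between two cells of one column is vertical -/
theorem Inn.align_col (hn : Net H X Y E F κ π) (h : Inn π i j) (h' : Inn π i' j')
    (hp : InC X Y κ i j p) (hw : InC X Y κ i' j' w) (hne : j ≠ j') (hadj : H.Adj p w) :
    X w = X p := by
  rcases h.exit hn hadj hp with e | ⟨e, -⟩ | e | e
  · exact absurd (h.uniq hn h' e hw).2 hne
  · exact (h.not_line hn h' hw e).elim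
  · exact e
  · exact absurd (le_antisymm (h.le_row hn h' hp hw e.ge) (h'.le_row hn h hw hp e.le)) hne

/-- two horizontal edges in the same direction -/
theorem dir_x (hd : ADraw H X Y E F) (hv : H.Adj p v) (hw : H.Adj p w) (e1 : Y v = Y p)
    (e2 : Y w = Y p) (h : 0 < (X v - X p) * (X w - X p)) : v = w := by
  have h0 : X w - X p ≠ 0 := by
    intro h0
    rw [h0, mul_zero] at h
    exact lt_irrefl _ h
  refine hd.same_dir hv hw (s := (X v - X p) * (X w - X p) / (X w - X p) ^ 2)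
    (div_pos h (by positivity)) ?_ ?_
  · field_simp
  · rw [e1, e2, sub_self, mul_zero]

/-- two vertical edges in the same direction -/
theorem dir_y (hd : ADraw H X Y E F) (hv : H.Adj p v) (hw : H.Adj p w) (e1 : X v = X p)
    (e2 : X w = X p) (h : 0 < (Y v - Y p) * (Y w - Y p)) : v = w :=
  dir_x hd.swap hv hw e1 e2 h

/-- a horizontal edge does not pass through an obstacle -/
theorem no_pass (hd : ADraw H X Y E F) {u w p v : V} {x0 x1 y0 y1 : ℝ} (huw : H.Adj u w)
    (hu : X u = x0) (hu' : Y u = y0) (hw : X w = x1) (hw' : Y w = y1) (hx : x0 < x1)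
    (hp : H.Adj p v) (hh : Y v = Y p) (c3 : y0 < Y p) (c4 : Y p < y1) (h1 : X p ≤ x0)
    (h2 : x1 ≤ X v) : False := by
  have hy : 0 < y1 - y0 := by linarith
  obtain ⟨t, ht⟩ : ∃ t, t = (Y p - y0) / (y1 - y0) := ⟨_, rfl⟩
  have ht0 : 0 < t := by rw [ht]; exact div_pos (by linarith) hy
  have ht1 : t < 1 := by rw [ht]; exact (div_lt_one hy).2 (by linarith)
  have ht' : t * (y1 - y0) = Y p - y0 := by rw [ht]; field_simp
  have k : 0 < X v - X p := by linarith
  have m1 : 0 < t * (x1 - x0) := mul_pos ht0 (by linarith)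
  have m2 : t * (x1 - x0) < x1 - x0 := by
    have := mul_lt_mul_of_pos_right ht1 (show 0 < x1 - x0 by linarith)
    linarith
  have key := hd.crs p v u w hp huw (by
    intro h
    rw [Sym2.eq_iff] at h
    rcases h with ⟨h, -⟩ | ⟨h, -⟩
    · rw [h, hu'] at c3
      exact lt_irrefl _ c3
    · rw [h, hw'] at c4
      exact lt_irrefl _ c4) ((x0 + t * (x1 - x0) - X p) / (X v - X p)) t
    (div_pos (by linarith) k) ((div_lt_one k).2 (by linarith)) ht0 ht1
    (by rw [hu, hw]; field_simp; ring) (by rw [hu', hw', hh]; linarith)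
  rw [hh, hu, hw, sub_self, zero_mul, mul_zero, add_zero] at key
  exact absurd key (mul_pos hd.E_pos (mul_pos k (by linarith))).ne'

/-- the diagonal of an obstacle -/
theorem Net.obst (hn : Net H X Y E F κ π) {a b : ℤ} (ha : 1 ≤ a) (hb : 1 ≤ b)
    (hs : a + b + 5 ≤ π.M) (hL : (π.R : ℤ) ∣ a - (Nat.fib (2 * π.D) : ℤ) * b) :
    ∃ u w, H.Adj u w ∧ X u = gX X κ a ∧ Y u = gY Y κ b ∧ X w = gX X κ (a + 1) ∧
      Y w = gY Y κ (b + 1) := by
  obtain ⟨x, rfl⟩ : ∃ x : ℕ, a = x := ⟨a.toNat, by omega⟩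
  obtain ⟨y, rfl⟩ : ∃ y : ℕ, b = y := ⟨b.toNat, by omega⟩
  have hL' : InL π.D ((x : ℤ), (y : ℤ)) := hL
  obtain ⟨p1, p2⟩ := hn.pos x y ⟨by omega, by omega, by omega, Or.inl hL'⟩
  obtain ⟨q1, q2⟩ := hn.pos (x + 1) (y + 1)
    ⟨by omega, by omega, by omega, Or.inr (Or.inl (by simpa using hL'))⟩
  push_cast at q1 q2
  exact ⟨_, _, hn.dg x y (by omega) (by omega) (by omega) hL', p1, p2, q1, q2⟩

/-- an obstacle in the row stops a horizontal edge -/
theorem Inn.stop_row (hn : Net H X Y E F κ π) (h : Inn π i j) (hadj : H.Adj p v)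
    (hh : Y v = Y p) (c3 : gY Y κ j < Y p) (c4 : Y p < gY Y κ (j + 1)) {a : ℤ}
    (ha : 1 ≤ a) (ha' : a ≤ i + π.R) (hL : (π.R : ℤ) ∣ a - (Nat.fib (2 * π.D) : ℤ) * j)
    (h1 : X p ≤ gX X κ a) (h2 : gX X κ (a + 1) ≤ X v) : False := by
  obtain ⟨a1, a2, a3, a4⟩ := h
  obtain ⟨u, w, huw, e1, e2, e3, e4⟩ := hn.obst (a := a) (b := j) ha (by omega) (by omega) hL
  exact no_pass hn.hd huw e1 e2 e3 e4 (hn.gx_lt a (a + 1) (by omega) (by omega) (by omega)) hadj hh
    c3 c4 h1 h2

/-- an obstacle in the column stops a vertical edge -/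
theorem Inn.stop_col (hn : Net H X Y E F κ π) (h : Inn π i j) (hadj : H.Adj p v)
    (hh : X v = X p) (c3 : gX X κ i < X p) (c4 : X p < gX X κ (i + 1)) {b : ℤ}
    (hb : 1 ≤ b) (hb' : b ≤ j + π.R) (hL : (π.R : ℤ) ∣ i - (Nat.fib (2 * π.D) : ℤ) * b)
    (h1 : Y p ≤ gY Y κ b) (h2 : gY Y κ (b + 1) ≤ Y v) : False := by
  obtain ⟨a1, a2, a3, a4⟩ := h
  obtain ⟨u, w, huw, e1, e2, e3, e4⟩ := hn.obst (a := i) (b := b) (by omega) hb (by omega) hL
  exact no_pass hn.hd.swap huw e2 e1 e4 e3 (hn.gy_lt b (b + 1) (by omega) (by omega) (by omega))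
    hadj hh c3 c4 h1 h2

/-- the bounds for a horizontal edge -/
theorem Inn.bd_row (hn : Net H X Y E F κ π) (h : Inn π i j) (hadj : H.Adj p v)
    (hc : InC X Y κ i j p) (hh : Y v = Y p) :
    gX X κ 0 < X v ∧ X v < gX X κ (i + π.R + 1) := by
  have hh' := h
  obtain ⟨a1, a2, a3, a4⟩ := h
  obtain ⟨c1, c2, c3, c4⟩ := hc
  constructor
  · obtain ⟨a, b1, b2, b3⟩ := obst_left (R := π.R) (c := Nat.fib (2 * π.D)) (by omega) i j
    by_contra hcon
    push Not at hcon
    have m1 := hh'.mono_x hn (a := 0) (b := a) le_rfl (by omega) (by omega)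
    have m2 := hh'.mono_x hn (a := a + 1) (b := i) (by omega) (by omega) (by omega)
    exact hh'.stop_row hn hadj.symm hh.symm (by rw [hh]; exact c3) (by rw [hh]; exact c4)
      (a := a) (by omega) (by omega) b3 (by linarith) (by linarith)
  · obtain ⟨a, b1, b2, b3⟩ := obst_right (R := π.R) (c := Nat.fib (2 * π.D)) (by omega) i j
    by_contra hcon
    push Not at hcon
    have m1 := hh'.mono_x hn (a := i + 1) (b := a) (by omega) (by omega) (by omega)
    have m2 := hh'.mono_x hn (a := a + 1) (b := i + π.R + 1) (by omega) (by omega) (by omega)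
    exact hh'.stop_row hn hadj hh c3 c4 (a := a) (by omega) (by omega) b3 (by linarith)
      (by linarith)

/-- the bounds for a vertical edge -/
theorem Inn.bd_col (hn : Net H X Y E F κ π) (h : Inn π i j) (hadj : H.Adj p v)
    (hc : InC X Y κ i j p) (hh : X v = X p) :
    gY Y κ 0 < Y v ∧ Y v < gY Y κ (j + π.R + 1) := by
  have hh' := h
  obtain ⟨a1, a2, a3, a4⟩ := h
  obtain ⟨c1, c2, c3, c4⟩ := hc
  constructor
  · obtain ⟨a, b1, b2, b3⟩ := obst_down (R := π.R) (c := Nat.fib (2 * π.D)) (by omega) π.dvd_sq i j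
    by_contra hcon
    push Not at hcon
    have m1 := hh'.mono_y hn (a := 0) (b := a) le_rfl (by omega) (by omega)
    have m2 := hh'.mono_y hn (a := a + 1) (b := j) (by omega) (by omega) (by omega)
    exact hh'.stop_col hn hadj.symm hh.symm (by rw [hh]; exact c1) (by rw [hh]; exact c2)
      (b := a) (by omega) (by omega) b3 (by linarith) (by linarith)
  · obtain ⟨a, b1, b2, b3⟩ := obst_up (R := π.R) (c := Nat.fib (2 * π.D)) (by omega) π.dvd_sq i j
    by_contra hcon
    push Not at hcon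
    have m1 := hh'.mono_y hn (a := j + 1) (b := a) (by omega) (by omega) (by omega)
    have m2 := hh'.mono_y hn (a := a + 1) (b := j + π.R + 1) (by omega) (by omega) (by omega)
    exact hh'.stop_col hn hadj hh c1 c2 (b := a) (by omega) (by omega) b3 (by linarith)
      (by linarith)

/-- the vertices in an inner cell and their neighbours are in the cell `NE` of the kite -/
theorem Inn.ne_mem (hn : Net H X Y E F κ π) (h : Inn π i j) (hc : InC X Y κ i j v) :
    NE X Y v := by
  have hh := h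
  obtain ⟨a1, a2, a3, a4⟩ := h
  obtain ⟨c1, c2, c3, c4⟩ := hc
  have m1 := hh.mono_x hn (a := 0) (b := i) le_rfl (by omega) (by omega)
  have m2 := hh.mono_y hn (a := 0) (b := j) le_rfl (by omega) (by omega)
  have m3 := hn.ne (i + 1) (j + 1) (by omega) (by omega) (by omega)
  exact ⟨by linarith [hn.px], by linarith [hn.py], by linarith⟩

theorem Inn.ne_nbr (hn : Net H X Y E F κ π) (h : Inn π i j) (hc : InC X Y κ i j p)
    (hadj : H.Adj p v) : NE X Y v := by
  have hh := h
  have hc' := hc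
  obtain ⟨a1, a2, a3, a4⟩ := h
  obtain ⟨c1, c2, c3, c4⟩ := hc
  have m1 := hh.mono_x hn (a := 0) (b := i) le_rfl (by omega) (by omega)
  have m1' := hh.mono_x hn (a := i) (b := i + 1) (by omega) (by omega) (by omega)
  have m2 := hh.mono_y hn (a := 0) (b := j) le_rfl (by omega) (by omega)
  have m2' := hh.mono_y hn (a := j) (b := j + 1) (by omega) (by omega) (by omega)
  have m3 := hn.ne (i + 1) (j + 1) (by omega) (by omega) (by omega)
  have hx := hn.px
  have hy := hn.py
  rcases hh.exit hn hadj hc' with e | ⟨e1, e2⟩ | e | e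
  · exact hh.ne_mem hn e
  · refine ⟨?_, ?_, ?_⟩
    · rcases e1 with e1 | e1 <;> rw [e1] <;> linarith
    · rcases e2 with e2 | e2 <;> rw [e2] <;> linarith
    · rcases e1 with e1 | e1 <;> rcases e2 with e2 | e2 <;> rw [e1, e2] <;> linarith
  · obtain ⟨b1, b2⟩ := hh.bd_col hn hadj hc' e
    have m4 := hn.ne (i + 1) (j + π.R + 1) (by omega) (by omega) (by omega)
    exact ⟨by rw [e]; linarith, by linarith, by rw [e]; linarith⟩
  · obtain ⟨b1, b2⟩ := hh.bd_row hn hadj hc' e
    have m4 := hn.ne (i + π.R + 1) (j + 1) (by omega) (by omega) (by omega)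
    exact ⟨by linarith, by rw [e]; linarith, by rw [e]; linarith⟩

end

end Pool.Agent.Helper58.DG3
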