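import Pool.Agent.Helper49.DG3.Dk

/-!
# Threads: links between the good vertices, and their number at a vertex
-/

set_option autoImplicit false

namespace Pool.Agent.Helper58.DG3

open Pool.Agent.Helper18.RAC
open Pool.Agent.Helper82.DG (NE)
open Pool.Agent.Helper49.DG3

variable {V : Type*} {H : SimpleGraph V} {X Y : V → ℝ} {E F : ℝ} {κ : GX → V} {π : Par}

theorem Dk.elim {x : GN} (h : Dk π x) : ∃ k a b t, x = .T k a b t ∧ π.St k a b ∧ 1 ≤ t ∧
    t ≤ 2 * π.l := by
  cases x with
  | T k a b t => exact ⟨k, a, b, t, rfl, h.1, h.2.1, h.2.2⟩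
  | _ => exact absurd h (by simp [Dk])

theorem Dk.ok {x : GN} (h : Dk π x) : x.ok π := by
  obtain ⟨k, a, b, t, rfl, h1, h2, h3⟩ := h.elim
  exact ⟨h1, by omega⟩

theorem Dk.inn {x : GN} (h : Dk π x) : Inn π (cellOf π x).1 (cellOf π x).2 := by
  obtain ⟨k, a, b, t, rfl, h1, h2, h3⟩ := h.elim
  exact tcell_inn h1 h2 (by omega)

theorem TPos.inc (ht : TPos X Y κ π) {x : GN} (h : Dk π x) :
    InC X Y κ (cellOf π x).1 (cellOf π x).2 (κ (.v x)) := by
  obtain ⟨k, a, b, t, rfl, h1, h2, h3⟩ := h.elim
  exact ht.mid k a b t h1 h2 h3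

/-- the good vertices are in the cell `NE` -/
theorem Net.dk_mem (hn : Net H X Y E F κ π) (ht : TPos X Y κ π) {x : GN} (h : Dk π x) :
    NE X Y (κ (.v x)) := h.inn.ne_mem hn (ht.inc h)

/-- the neighbours of the good vertices are in the cell `NE` -/
theorem Net.dk_nbr (hn : Net H X Y E F κ π) (ht : TPos X Y κ π) {x : GN} (h : Dk π x) {v : V}
    (hv : H.Adj (κ (.v x)) v) : NE X Y v := h.inn.ne_nbr hn (ht.inc h) hv

theorem adj_tt (hg : HasGrid H κ π) {k a b t : ℕ} (h : π.St k a b) (ht : t ≤ 2 * π.l) :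
    H.Adj (κ (.v (.T k a b t))) (κ (.v (.T k a b (t + 1)))) :=
  hg.adj (.tt k a b t) ⟨h, ht⟩

/-- a horizontal link to the right -/
theorem Net.dd_right (hn : Net H X Y E F κ π) (hg : HasGrid H κ π) (ht : TPos X Y κ π)
    {x y : GN} (hx : Dk π x) (hy : Dk π y) (hxy : H.Adj (κ (.v x)) (κ (.v y)))
    (hh : Y (κ (.v y)) = Y (κ (.v x))) (hX : X (κ (.v x)) < X (κ (.v y))) :
    ∃ c : GE, c.isl π ∧ s(κ (.v x), κ (.v y)) = s(κ (c.ends π).1, κ (c.ends π).2) := by
  have hd := hn.hd
  have ix := hx.inn
  have iy := hy.inn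
  have px := ht.inc hx
  have py := ht.inc hy
  have ej := le_antisymm (ix.le_row hn iy px py hh.ge) (iy.le_row hn ix py px hh.le)
  have hi := ix.le_col hn iy px py hX.le
  have hne : (cellOf π x).1 ≠ (cellOf π y).1 := by
    intro e
    have := dk_cell_inj hx hy (Prod.ext e ej)
    rw [this] at hX
    exact lt_irrefl _ hX
  have hlt : (cellOf π x).1 < (cellOf π y).1 := lt_of_le_of_ne hi hne
  obtain ⟨k, a, b, t, rfl, h1, h2, h3⟩ := hx.elim
  obtain ⟨k', a', b', t', rfl, h1', h2', h3'⟩ := hy.elim
  have W := h1.1.two_fx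
  have W' := h1'.1.two_fx
  change (tcell π k a b t).1 < (tcell π k' a' b' t').1 at hlt
  change (tcell π k a b t).2 = (tcell π k' a' b' t').2 at ej
  rcases Nat.mod_two_eq_zero_or_one t with e | e
  · rcases Nat.mod_two_eq_zero_or_one t' with e' | e'
    · -- the partner of `y` is to the left
      obtain ⟨s, rfl⟩ : ∃ s, t' = s + 1 := ⟨t' - 1, by omega⟩
      have adj := adj_tt hg h1' (t := s) (by omega)
      have pw := ht.mid k' a' b' s h1' (by omega) (by omega)
      have iw := tcell_inn h1' (t := s) (by omega) (by omega)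
      have c1 : (tcell π k' a' b' s).2 = (tcell π k' a' b' (s + 1)).2 := by
        rw [tc_snd _ _ _ _ (by omega), tc_snd _ _ _ _ (by omega)]
        unfold rowT
        rw [show (s + 1 - 1) / 2 = (s - 1) / 2 by omega]
      have c2 : (tcell π k' a' b' s).1 < (tcell π k' a' b' (s + 1)).1 := by
        rw [tc_fst, tc_fst]
        unfold colT
        rw [show (s + 1) / 2 = s / 2 + 1 by omega]
        push_cast
        linarith
      have al := iy.align_row hn iw py pw c2.ne' adj.symm
      have hlt' : X (κ (.v (.T k' a' b' s))) < X (κ (.v (.T k' a' b' (s + 1)))) := by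
        by_contra hcon
        exact absurd (iy.le_col hn iw py pw (not_lt.1 hcon)) (not_le.2 c2)
      have := dir_x hd hxy.symm adj.symm hh.symm al
        (mul_pos_of_neg_of_neg (by linarith) (by linarith))
      refine ⟨.tt k' a' b' s, ⟨h1', by omega, by omega⟩, ?_⟩
      rw [this]
      rfl
    · -- a right end to the left of a left end
      exfalso
      obtain ⟨hB1, hB2⟩ := strip_aux (R := π.R) (B := baseH π.R (π.fx k) a t)
        (B' := baseH π.R (π.fx k') a' t') (o := π.fx k) (o' := π.fx k')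
        (dvd_row (c := Nat.fib (2 * π.D)) (j := (tcell π k a b t).2)
          (by rw [tc_snd _ _ _ _ h2]; exact dvd_baseH h1.1.dvd h1.dvd t)
          (by rw [ej, tc_snd _ _ _ _ h2']; exact dvd_baseH h1'.1.dvd h1'.dvd t'))
        h1.1.fx_pos W h1'.1.fx_pos W' (colT_even h2 e) (colT_odd e') hlt
      have hL : (π.R : ℤ) ∣ baseH π.R (π.fx k') a' t' -
          (Nat.fib (2 * π.D) : ℤ) * (tcell π k' a' b' t').2 := by
        rw [tc_snd _ _ _ _ h2']
        exact dvd_baseH h1'.1.dvd h1'.dvd t'
      obtain ⟨q1, q2, q3, q4⟩ := px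
      obtain ⟨r1, r2, r3, r4⟩ := py
      change (tcell π k a b t).1 < baseH π.R (π.fx k') a' t' at hB1
      change baseH π.R (π.fx k') a' t' < (tcell π k' a' b' t').1 at hB2
      change X (κ (.v (.T k a b t))) < gX X κ ((tcell π k a b t).1 + 1) at q2
      change gX X κ (tcell π k' a' b' t').1 < X (κ (.v (.T k' a' b' t'))) at r1
      change gY Y κ (tcell π k' a' b' t').2 < Y (κ (.v (.T k' a' b' t'))) at r3
      change Y (κ (.v (.T k' a' b' t'))) < gY Y κ ((tcell π k' a' b' t').2 + 1) at r4
      have u1 := ix.hi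
      have u2 := ix.hR
      have u3 : 0 ≤ (tcell π k a b t).1 := by
        change 2 * (π.R : ℤ) ≤ (tcell π k a b t).1 at u1
        linarith
      have iy' : Inn π (tcell π k' a' b' t').1 (tcell π k' a' b' t').2 := iy
      have m1 := iy'.mono_x hn (a := (tcell π k a b t).1 + 1) (b := baseH π.R (π.fx k') a' t')
        (by omega) (by omega) (by omega)
      have m2 := iy'.mono_x hn (a := baseH π.R (π.fx k') a' t' + 1)
        (b := (tcell π k' a' b' t').1) (by omega) (by omega) (by omega)
      exact iy'.stop_row hn hxy hh (by rw [← hh]; exact r3) (by rw [← hh]; exact r4)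
        (a := baseH π.R (π.fx k') a' t') (by omega) (by omega) hL (by linarith) (by linarith)
  · -- the partner of `x` is to the right
    have adj := adj_tt hg h1 (t := t) (by omega)
    have pw := ht.mid k a b (t + 1) h1 (by omega) (by omega)
    have iw := tcell_inn h1 (t := t + 1) (by omega) (by omega)
    have c2 : (tcell π k a b t).1 < (tcell π k a b (t + 1)).1 := by
      rw [tc_fst, tc_fst]
      unfold colT
      rw [show (t + 1) / 2 = t / 2 + 1 by omega]
      push_cast
      linarith
    have al := ix.align_row hn iw px pw c2.ne adj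
    have hlt' : X (κ (.v (.T k a b t))) < X (κ (.v (.T k a b (t + 1)))) := by
      by_contra hcon
      exact absurd (iw.le_col hn ix pw px (not_lt.1 hcon)) (not_le.2 c2)
    have := dir_x hd hxy adj hh al (mul_pos (by linarith) (by linarith))
    refine ⟨.tt k a b t, ⟨h1, h2, by omega⟩, ?_⟩
    rw [this]
    rfl

/-- a vertical link upwards -/
theorem Net.dd_up (hn : Net H X Y E F κ π) (hg : HasGrid H κ π) (ht : TPos X Y κ π)
    {x y : GN} (hx : Dk π x) (hy : Dk π y) (hxy : H.Adj (κ (.v x)) (κ (.v y)))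
    (hh : X (κ (.v y)) = X (κ (.v x))) (hY : Y (κ (.v x)) < Y (κ (.v y))) :
    ∃ c : GE, c.isl π ∧ s(κ (.v x), κ (.v y)) = s(κ (c.ends π).1, κ (c.ends π).2) := by
  have hd := hn.hd
  have ix := hx.inn
  have iy := hy.inn
  have px := ht.inc hx
  have py := ht.inc hy
  have ei := le_antisymm (ix.le_col hn iy px py hh.ge) (iy.le_col hn ix py px hh.le)
  have hj := ix.le_row hn iy px py hY.le
  have hne : (cellOf π x).2 ≠ (cellOf π y).2 := by
    intro e
    have := dk_cell_inj hx hy (Prod.ext ei e)
    rw [this] at hY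
    exact lt_irrefl _ hY
  have hlt : (cellOf π x).2 < (cellOf π y).2 := lt_of_le_of_ne hj hne
  have hx' := hx
  have hy' := hy
  obtain ⟨k, a, b, t, rfl, h1, h2, h3⟩ := hx.elim
  obtain ⟨k', a', b', t', rfl, h1', h2', h3'⟩ := hy.elim
  have W := h1.1.two_fy
  have W' := h1'.1.two_fy
  change (tcell π k a b t).2 < (tcell π k' a' b' t').2 at hlt
  change (tcell π k a b t).1 = (tcell π k' a' b' t').1 at ei
  rcases Nat.mod_two_eq_zero_or_one t with e | e
  · rcases Nat.mod_two_eq_zero_or_one t' with e' | e'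
    · -- the partner of `y` is below
      have adj := adj_tt hg h1' (t := t') h3'
      -- position of the partner
      obtain ⟨i, j, iw, pw, c1, c2⟩ : ∃ i j, Inn π i j ∧
          InC X Y κ i j (κ (.v (.T k' a' b' (t' + 1)))) ∧ i = (tcell π k' a' b' t').1 ∧
          j < (tcell π k' a' b' t').2 := by
        rcases Nat.lt_or_ge t' (2 * π.l) with hl | hl
        · refine ⟨_, _, tcell_inn h1' (t := t' + 1) (by omega) (by omega),
            ht.mid k' a' b' (t' + 1) h1' (by omega) (by omega), ?_, ?_⟩
          · rw [tc_fst, tc_fst]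
            unfold colT
            rw [show (t' + 1) / 2 = t' / 2 by omega]
          · rw [tc_snd _ _ _ _ (by omega), tc_snd _ _ _ _ h2']
            unfold rowT
            rw [show (t' + 1 - 1) / 2 = (t' - 1) / 2 + 1 by omega]
            push_cast
            linarith
        · obtain rfl : t' = 2 * π.l := by omega
          refine ⟨_, _, end_inn h1', ht.en k' a' b' h1', ?_, ?_⟩
          · rw [tc_fst]
            unfold colT Par.pp
            rw [show 2 * π.l / 2 = π.l by omega]
          · rw [tc_snd _ _ _ _ h2']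
            unfold rowT Par.pp
            obtain ⟨n, hn'⟩ : ∃ n, π.l = n + 1 := ⟨π.l - 1, by omega⟩
            rw [hn', show (2 * (n + 1) - 1) / 2 = n by omega]
            push_cast
            linarith [h1'.1.fy_pos]
      have al := iy.align_col hn iw py pw c2.ne' adj
      have hlt' : Y (κ (.v (.T k' a' b' (t' + 1)))) < Y (κ (.v (.T k' a' b' t'))) := by
        by_contra hcon
        exact absurd (iy.le_row hn iw py pw (not_lt.1 hcon)) (not_le.2 c2)
      have key := dir_y hd hxy.symm adj hh.symm al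
        (mul_pos_of_neg_of_neg (by linarith) (by linarith))
      rcases Nat.lt_or_ge t' (2 * π.l) with hl | hl
      · refine ⟨.tt k' a' b' t', ⟨h1', h2', by omega⟩, ?_⟩
        rw [key]
        exact Sym2.eq_swap
      · exfalso
        have := hg.inj _ _ hx'.ok (show GN.ok π (.T k' a' b' (t' + 1)) from ⟨h1', by omega⟩) key
        rw [GN.T.injEq] at this
        omega
    · -- an upper end below a lower end
      exfalso
      obtain ⟨hB1, hB2⟩ := strip_aux (R := π.R) (B := baseV π.R (π.fy k) b t)
        (B' := baseV π.R (π.fy k') b' t') (o := π.fy k) (o' := π.fy k')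
        (dvd_col (c := Nat.fib (2 * π.D)) (i := (tcell π k a b t).1) π.dvd_sq
          (by rw [tc_fst]; exact dvd_baseV h1.1.dvd h1.dvd t)
          (by rw [ei, tc_fst]; exact dvd_baseV h1'.1.dvd h1'.dvd t'))
        h1.1.fy_pos W h1'.1.fy_pos W' ((tc_snd _ _ _ _ h2).trans (rowT_even h2 e))
        ((tc_snd _ _ _ _ h2').trans (rowT_odd e')) hlt
      have hL : (π.R : ℤ) ∣ (tcell π k' a' b' t').1 -
          (Nat.fib (2 * π.D) : ℤ) * baseV π.R (π.fy k') b' t' := by
        rw [tc_fst]
        exact dvd_baseV h1'.1.dvd h1'.dvd t'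
      obtain ⟨q1, q2, q3, q4⟩ := px
      obtain ⟨r1, r2, r3, r4⟩ := py
      change Y (κ (.v (.T k a b t))) < gY Y κ ((tcell π k a b t).2 + 1) at q4
      change gX X κ (tcell π k' a' b' t').1 < X (κ (.v (.T k' a' b' t'))) at r1
      change X (κ (.v (.T k' a' b' t'))) < gX X κ ((tcell π k' a' b' t').1 + 1) at r2
      change gY Y κ (tcell π k' a' b' t').2 < Y (κ (.v (.T k' a' b' t'))) at r3
      have u1 := ix.hj
      have u2 := ix.hR
      have u3 : 0 ≤ (tcell π k a b t).2 := by
        change 2 * (π.R : ℤ) ≤ (tcell π k a b t).2 at u1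
        linarith
      have iy' : Inn π (tcell π k' a' b' t').1 (tcell π k' a' b' t').2 := iy
      have m1 := iy'.mono_y hn (a := (tcell π k a b t).2 + 1) (b := baseV π.R (π.fy k') b' t')
        (by omega) (by omega) (by omega)
      have m2 := iy'.mono_y hn (a := baseV π.R (π.fy k') b' t' + 1)
        (b := (tcell π k' a' b' t').2) (by omega) (by omega) (by omega)
      exact iy'.stop_col hn hxy hh (by rw [← hh]; exact r1) (by rw [← hh]; exact r2)
        (b := baseV π.R (π.fy k') b' t') (by omega) (by omega) hL (by linarith) (by linarith)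
  · -- the partner of `x` is above
    obtain ⟨s, rfl⟩ : ∃ s, t = s + 1 := ⟨t - 1, by omega⟩
    have adj := adj_tt hg h1 (t := s) (by omega)
    obtain ⟨i, j, iw, pw, c1, c2⟩ : ∃ i j, Inn π i j ∧
        InC X Y κ i j (κ (.v (.T k a b s))) ∧ i = (tcell π k a b (s + 1)).1 ∧
        (tcell π k a b (s + 1)).2 < j := by
      rcases Nat.eq_zero_or_pos s with rfl | hs
      · refine ⟨_, _, start_inn h1, ht.st k a b h1, ?_, ?_⟩
        · rw [tc_fst]
          unfold colT
          simp
        · rw [tc_snd _ _ _ _ (by omega)]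
          unfold rowT
          simp only [zero_add, Nat.sub_self, Nat.zero_div, Nat.cast_zero, zero_mul, sub_zero]
          linarith [h1.1.fy_pos]
      · refine ⟨_, _, tcell_inn h1 (t := s) (by omega) (by omega),
          ht.mid k a b s h1 (by omega) (by omega), ?_, ?_⟩
        · rw [tc_fst, tc_fst]
          unfold colT
          rw [show (s + 1) / 2 = s / 2 by omega]
        · rw [tc_snd _ _ _ _ (by omega), tc_snd _ _ _ _ (by omega)]
          unfold rowT
          rw [show (s + 1 - 1) / 2 = (s - 1) / 2 + 1 by omega]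
          push_cast
          linarith
    have al := ix.align_col hn iw px pw c2.ne adj.symm
    have hlt' : Y (κ (.v (.T k a b (s + 1)))) < Y (κ (.v (.T k a b s))) := by
      by_contra hcon
      exact absurd (iw.le_row hn ix pw px (not_lt.1 hcon)) (not_le.2 c2)
    have key := dir_y hd hxy adj.symm hh al (mul_pos (by linarith) (by linarith))
    rcases Nat.eq_zero_or_pos s with rfl | hs
    · exfalso
      have := hg.inj _ _ hy'.ok (show GN.ok π (.T k a b 0) from ⟨h1, by omega⟩) key
      rw [GN.T.injEq] at this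
      omega
    · refine ⟨.tt k a b s, ⟨h1, hs, by omega⟩, ?_⟩
      rw [key]
      exact Sym2.eq_swap

/-- **The edges between the good vertices are the links.** -/
theorem Net.dk_dd (hn : Net H X Y E F κ π) (hg : HasGrid H κ π) (ht : TPos X Y κ π)
    {x y : GN} (hx : Dk π x) (hy : Dk π y) (hxy : H.Adj (κ (.v x)) (κ (.v y))) :
    ∃ c : GE, c.isl π ∧ s(κ (.v x), κ (.v y)) = s(κ (c.ends π).1, κ (c.ends π).2) := by
  have ix := hx.inn
  have iy := hy.inn
  have px := ht.inc hx
  have py := ht.inc hy
  have same : ¬ (X (κ (.v y)) = X (κ (.v x)) ∧ Y (κ (.v y)) = Y (κ (.v x))) := by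
    rintro ⟨e1, e2⟩
    have := dk_cell_inj hx hy (Prod.ext
      (le_antisymm (ix.le_col hn iy px py e1.ge) (iy.le_col hn ix py px e1.le))
      (le_antisymm (ix.le_row hn iy px py e2.ge) (iy.le_row hn ix py px e2.le)))
    rw [this] at hxy
    exact H.irrefl hxy
  rcases ix.exit hn hxy px with e | ⟨e, -⟩ | e | e
  · exfalso
    obtain ⟨e1, e2⟩ := ix.uniq hn iy e py
    have := dk_cell_inj hx hy (Prod.ext e1 e2)
    rw [this] at hxy
    exact H.irrefl hxy
  · exact (ix.not_line hn iy py e).elim
  · rcases lt_trichotomy (Y (κ (.v x))) (Y (κ (.v y))) with h | h | h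
    · exact hn.dd_up hg ht hx hy hxy e h
    · exact absurd ⟨e, h.symm⟩ same
    · obtain ⟨c, h1, h2⟩ := hn.dd_up hg ht hy hx hxy.symm e.symm h
      exact ⟨c, h1, Sym2.eq_swap.trans h2⟩
  · rcases lt_trichotomy (X (κ (.v x))) (X (κ (.v y))) with h | h | h
    · exact hn.dd_right hg ht hx hy hxy e h
    · exact absurd ⟨h.symm, e⟩ same
    · obtain ⟨c, h1, h2⟩ := hn.dd_right hg ht hy hx hxy.symm e.symm h
      exact ⟨c, h1, Sym2.eq_swap.trans h2⟩

/-- an open cell is on one side of its sides -/
theorem Inn.corner (hn : Net H X Y E F κ π) {i j i' j' : ℤ} (h : Inn π i j) (h' : Inn π i' j')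
    {p q v : V} (hp : InC X Y κ i j p) (hq : InC X Y κ i' j' q)
    (e : X v = gX X κ i ∨ X v = gX X κ (i + 1)) (e' : X v = gX X κ i' ∨ X v = gX X κ (i' + 1))
    (hs : SignType.sign (X p - X v) = SignType.sign (X q - X v)) : i = i' := by
  obtain ⟨a1, a2, a3, a4⟩ := h
  obtain ⟨b1, b2, b3, b4⟩ := h'
  obtain ⟨p1, p2, -, -⟩ := hp
  obtain ⟨q1, q2, -, -⟩ := hq
  have inj : ∀ a b : ℤ, (a = i ∨ a = i + 1 ∨ a = i' ∨ a = i' + 1) →
      (b = i ∨ b = i + 1 ∨ b = i' ∨ b = i' + 1) → gX X κ a = gX X κ b → a = b := by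
    intro a b ha hb hab
    rcases lt_trichotomy a b with h | h | h
    · exact absurd hab (hn.gx_lt a b (by omega) h (by omega)).ne
    · exact h
    · exact absurd hab (hn.gx_lt b a (by omega) h (by omega)).ne'
  rcases e with e | e <;> rcases e' with e' | e'
  · exact inj i i' (by omega) (by omega) (e.symm.trans e')
  · exfalso
    rw [sign_pos (show 0 < X p - X v by linarith), sign_neg (show X q - X v < 0 by linarith)] at hs
    exact absurd hs (by decide)
  · exfalso
    rw [sign_neg (show X p - X v < 0 by linarith), sign_pos (show 0 < X q - X v by linarith)] at hs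
    exact absurd hs (by decide)
  · have := inj (i + 1) (i' + 1) (by omega) (by omega) (e.symm.trans e')
    omega

theorem Inn.corner' (hn : Net H X Y E F κ π) {i j i' j' : ℤ} (h : Inn π i j) (h' : Inn π i' j')
    {p q v : V} (hp : InC X Y κ i j p) (hq : InC X Y κ i' j' q)
    (e : Y v = gY Y κ j ∨ Y v = gY Y κ (j + 1)) (e' : Y v = gY Y κ j' ∨ Y v = gY Y κ (j' + 1))
    (hs : SignType.sign (Y p - Y v) = SignType.sign (Y q - Y v)) : j = j' := by
  obtain ⟨a1, a2, a3, a4⟩ := h
  obtain ⟨b1, b2, b3, b4⟩ := h'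
  obtain ⟨-, -, p1, p2⟩ := hp
  obtain ⟨-, -, q1, q2⟩ := hq
  have inj : ∀ a b : ℤ, (a = j ∨ a = j + 1 ∨ a = j' ∨ a = j' + 1) →
      (b = j ∨ b = j + 1 ∨ b = j' ∨ b = j' + 1) → gY Y κ a = gY Y κ b → a = b := by
    intro a b ha hb hab
    rcases lt_trichotomy a b with h | h | h
    · exact absurd hab (hn.gy_lt a b (by omega) h (by omega)).ne
    · exact h
    · exact absurd hab (hn.gy_lt b a (by omega) h (by omega)).ne'
  rcases e with e | e <;> rcases e' with e' | e'
  · exact inj j j' (by omega) (by omega) (e.symm.trans e')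
  · exfalso
    rw [sign_pos (show 0 < Y p - Y v by linarith), sign_neg (show Y q - Y v < 0 by linarith)] at hs
    exact absurd hs (by decide)
  · exfalso
    rw [sign_neg (show Y p - Y v < 0 by linarith), sign_pos (show 0 < Y q - Y v by linarith)] at hs
    exact absurd hs (by decide)
  · have := inj (j + 1) (j' + 1) (by omega) (by omega) (e.symm.trans e')
    omega

theorem mul_pos_of_sign {a b : ℝ} (h : SignType.sign a = SignType.sign b) (ha : a ≠ 0) :
    0 < a * b := by
  rcases lt_or_gt_of_ne ha with h1 | h1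
  · rw [sign_neg h1] at h
    exact mul_pos_of_neg_of_neg h1 (sign_eq_neg_one_iff.1 h.symm)
  · rw [sign_pos h1] at h
    exact mul_pos h1 (sign_eq_one_iff.1 h.symm)

/-- **A vertex has at most nine good neighbours.** -/
theorem Net.dk_cnt (hn : Net H X Y E F κ π) (hg : HasGrid H κ π) (ht : TPos X Y κ π) (v : V) :
    ∃ g : GN → Fin 9, ∀ x y, Dk π x → Dk π y → H.Adj (κ (.v x)) v → H.Adj (κ (.v y)) v →
      g x = g y → x = y := by
  classical
  have hcard : Fintype.card (SignType × SignType) = 9 := by decide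
  let φ : SignType × SignType ≃ Fin 9 := Fintype.equivFinOfCardEq hcard
  let A : GN → Prop := fun x => InC X Y κ (cellOf π x).1 (cellOf π x).2 v
  let g : GN → SignType × SignType := fun x => if A x then (0, 0) else
    (SignType.sign (X (κ (.v x)) - X v), SignType.sign (Y (κ (.v x)) - Y v))
  refine ⟨fun x => φ (g x), ?_⟩
  intro x y hx hy hxv hyv hgxy
  have hgxy' : g x = g y := φ.injective hgxy
  have ix := hx.inn
  have iy := hy.inn
  have px := ht.inc hx
  have py := ht.inc hy
  -- the same position as `v`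
  have pos0 : ∀ z : GN, InC X Y κ (cellOf π z).1 (cellOf π z).2 (κ (.v z)) → ¬ A z →
      ¬ (X (κ (.v z)) - X v = 0 ∧ Y (κ (.v z)) - Y v = 0) := by
    rintro z hz hA ⟨e1, e2⟩
    apply hA
    obtain ⟨c1, c2, c3, c4⟩ := hz
    exact ⟨by linarith, by linarith, by linarith, by linarith⟩
  have gA : ∀ z : GN, A z → g z = (0, 0) := fun z h => if_pos h
  have gB : ∀ z : GN, ¬ A z → g z = (SignType.sign (X (κ (.v z)) - X v),
    SignType.sign (Y (κ (.v z)) - Y v)) := fun z h => if_neg h
  by_cases hAx : A x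
  · by_cases hAy : A y
    · obtain ⟨e1, e2⟩ := ix.uniq hn iy hAx hAy
      exact dk_cell_inj hx hy (Prod.ext e1 e2)
    · exfalso
      rw [gA x hAx, gB y hAy, Prod.mk.injEq] at hgxy'
      exact pos0 y py hAy ⟨sign_eq_zero_iff.1 hgxy'.1.symm, sign_eq_zero_iff.1 hgxy'.2.symm⟩
  · by_cases hAy : A y
    · exfalso
      rw [gB x hAx, gA y hAy, Prod.mk.injEq] at hgxy'
      exact pos0 x px hAx ⟨sign_eq_zero_iff.1 hgxy'.1, sign_eq_zero_iff.1 hgxy'.2⟩
    · rw [gB x hAx, gB y hAy, Prod.mk.injEq] at hgxy'
      obtain ⟨s1, s2⟩ := hgxy'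
      have fin : κ (.v x) = κ (.v y) → x = y := fun h => hg.inj x y hx.ok hy.ok h
      by_cases z1 : X (κ (.v x)) - X v = 0
      · have z1' : X (κ (.v y)) - X v = 0 := by
          rw [z1, sign_zero] at s1
          exact sign_eq_zero_iff.1 s1.symm
        have z2 : Y (κ (.v x)) - Y v ≠ 0 := fun h => pos0 x px hAx ⟨z1, h⟩
        exact fin (dir_y hn.hd hxv.symm hyv.symm (by linarith) (by linarith)
          (mul_pos_of_sign s2 z2))
      · by_cases z2 : Y (κ (.v x)) - Y v = 0
        · have z2' : Y (κ (.v y)) - Y v = 0 := by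
            rw [z2, sign_zero] at s2
            exact sign_eq_zero_iff.1 s2.symm
          exact fin (dir_x hn.hd hxv.symm hyv.symm (by linarith) (by linarith)
            (mul_pos_of_sign s1 z1))
        · have z1' : X (κ (.v y)) - X v ≠ 0 := by
            intro h
            rw [h, sign_zero] at s1
            exact z1 (sign_eq_zero_iff.1 s1)
          have z2' : Y (κ (.v y)) - Y v ≠ 0 := by
            intro h
            rw [h, sign_zero] at s2
            exact z2 (sign_eq_zero_iff.1 s2)
          rcases ix.exit hn hxv px with e | ⟨e1, e2⟩ | e | e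
          · exact absurd e hAx
          · rcases iy.exit hn hyv py with e' | ⟨e1', e2'⟩ | e' | e'
            · exact absurd e' hAy
            · exact dk_cell_inj hx hy (Prod.ext (ix.corner hn iy px py e1 e1' s1)
                (ix.corner' hn iy px py e2 e2' s2))
            · exact absurd (by linarith) z1'
            · exact absurd (by linarith) z2'
          · exact absurd (by linarith) z1
          · exact absurd (by linarith) z2

end Pool.Agent.Helper58.DG3
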