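import Pool.Agent.Helper58.DG3.Net
import Pool.Agent.Helper49.DG3.TCell
import Pool.Agent.Helper68.RAC1.Par

/-!
# Threads: the cells of the good vertices, numbers
-/

set_option autoImplicit false

namespace Pool.Agent.Helper58.DG3

open Pool.Agent.Helper49.DG3

/-- the cell of a good name -/
def cellOf (π : Par) : GN → ℤ × ℤ
  | .T k x y t => tcell π k x y t
  | _ => (0, 0)

namespace Par

theorem Cl.two_fx {π : Par} {k : ℕ} (h : π.Cl k) : 2 * (π.fx k : ℤ) < π.R := by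
  unfold Par.fx Par.R
  exact Pool.Agent.Helper68.RAC1.fib_two_lt (by have := h.2; omega)

theorem Cl.two_fy {π : Par} {k : ℕ} (h : π.Cl k) : 2 * (π.fy k : ℤ) < π.R := by
  unfold Par.fy Par.R
  exact Pool.Agent.Helper68.RAC1.fib_two_lt (by have := h.1; have := h.2; omega)

theorem Cl.fy_pos {π : Par} {k : ℕ} (_ : π.Cl k) : 0 < (π.fy k : ℤ) := by
  unfold Par.fy
  exact Pool.Agent.Helper68.RAC1.par_t_pos _

theorem Cl.fx_pos {π : Par} {k : ℕ} (_ : π.Cl k) : 0 < (π.fx k : ℤ) := by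
  unfold Par.fx
  exact Pool.Agent.Helper68.RAC1.par_t_pos _

theorem Cl.dvd {π : Par} {k : ℕ} (h : π.Cl k) :
    (π.R : ℤ) ∣ (π.fx k : ℤ) + (Nat.fib (2 * π.D) : ℤ) * π.fy k := by
  unfold Par.fx Par.fy Par.R
  exact Pool.Agent.Helper68.RAC1.par_dvd (by have := h.2; omega)

theorem Cl.fy_inj {π : Par} {k k' : ℕ} (h : π.Cl k) (h' : π.Cl k')
    (e : (π.fy k : ℤ) = π.fy k') : k = k' := by
  have e' : π.fy k = π.fy k' := by exact_mod_cast e
  unfold Par.fy at e'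
  have h1 := h.2
  have h2 := h'.2
  rcases lt_trichotomy (π.D - k) (π.D - k') with h3 | h3 | h3
  · exact absurd e' (Pool.Agent.Helper68.RAC1.fib_odd_lt h3).ne
  · omega
  · exact absurd e' (Pool.Agent.Helper68.RAC1.fib_odd_lt h3).ne'

theorem Cl.R_ge {π : Par} {k : ℕ} (h : π.Cl k) : 144 ≤ (π.R : ℤ) := by
  have h1 : Nat.fib 12 ≤ Nat.fib (2 * π.D + 2) :=
    Nat.fib_mono (by have := h.1; have := h.2; omega)
  have h2 : Nat.fib 12 = 144 := by decide
  rw [h2] at h1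
  unfold Par.R
  exact_mod_cast h1

theorem dvd_sq (π : Par) : (π.R : ℤ) ∣ (Nat.fib (2 * π.D) : ℤ) * Nat.fib (2 * π.D) - 1 :=
  Pool.Agent.Helper68.RAC1.par_dvd_sq π.D

/-- the start slab in `ℤ` -/
theorem St.slab {π : Par} {k x y : ℕ} (h : π.St k x y) :
    ((x : ℤ) / ((π.R : ℤ) - 2 * π.fx k)) % ((π.l : ℤ) + 1) = 0 := by
  have h1 := h.2.2.2.2.2
  have h2 := h.1.two_fx
  have h3 : 2 * π.fx k ≤ π.R := by
    have : (2 * (π.fx k : ℤ)) ≤ π.R := h2.le
    exact_mod_cast this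
  have h4 : (((x / (π.R - 2 * π.fx k)) % (π.l + 1) : ℕ) : ℤ) = 0 := by
    rw [h1]
    rfl
  push_cast [Nat.cast_sub h3] at h4
  exact h4

theorem St.dvd {π : Par} {k x y : ℕ} (h : π.St k x y) :
    (π.R : ℤ) ∣ (x : ℤ) - (Nat.fib (2 * π.D) : ℤ) * y := h.2.1

end Par

theorem tc_fst (π : Par) (k x y t : ℕ) :
    (tcell π k x y t).1 = colT π.R (π.fx k) x t := rfl

theorem tc_snd (π : Par) (k x y : ℕ) {t : ℕ} (h : 1 ≤ t) :
    (tcell π k x y t).2 = rowT π.R (π.fy k) y t := by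
  unfold tcell rowT Par.qq Par.pp
  rw [if_neg (by omega)]
  simp only
  ring

/-- the cells of the good vertices are different -/
theorem dk_cell_inj {π : Par} {x y : GN} (hx : Dk π x) (hy : Dk π y)
    (h : cellOf π x = cellOf π y) : x = y := by
  cases x with
  | T k a b t =>
    cases y with
    | T k' a' b' t' =>
      obtain ⟨h1, h2, h3⟩ := hx
      obtain ⟨h1', h2', h3'⟩ := hy
      change tcell π k a b t = tcell π k' a' b' t' at h
      have e1 : colT π.R (π.fx k) a t = colT π.R (π.fx k') a' t' := congrArg Prod.fst h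
      have e2 := congrArg Prod.snd h
      rw [tc_snd π k a b h2, tc_snd π k' a' b' h2'] at e2
      obtain ⟨r1, r2, r3, r4⟩ := cell_inj (R := π.R) (c := Nat.fib (2 * π.D))
        (tt := fun k => (π.fx k : ℤ)) (ss := fun k => (π.fy k : ℤ)) (K := {k | π.Cl k})
        (l := π.l) π.dvd_sq (fun k hk => Par.Cl.two_fx hk)
        (fun k hk => ⟨Par.Cl.fy_pos hk, Par.Cl.two_fy hk⟩) (fun k hk => Par.Cl.dvd hk)
        (fun k hk k' hk' e => Par.Cl.fy_inj hk hk' e) h1.1 h1'.1 h1.dvd h1'.dvd h1.slab h1'.slab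
        h2 (by omega) h2' (by omega) e1 e2
      obtain rfl := r1
      obtain rfl : a = a' := by exact_mod_cast r2
      obtain rfl : b = b' := by exact_mod_cast r3
      obtain rfl := r4
      rfl
    | _ => exact absurd hy (by simp [Dk])
  | _ => exact absurd hx (by simp [Dk])

/-- the cells of the vertices of the threads are far from the boundary of the region -/
structure Inn (π : Par) (i j : ℤ) : Prop where
  hR : 144 ≤ (π.R : ℤ)
  hi : 2 * (π.R : ℤ) ≤ i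
  hj : 2 * (π.R : ℤ) ≤ j
  hs : i + j + 6 * π.R ≤ π.M

theorem mul_bd {m l : ℕ} {W R : ℤ} (hW : 0 ≤ W) (hWR : W ≤ R) (h : m ≤ l) :
    0 ≤ (m : ℤ) * W ∧ (m : ℤ) * W ≤ l * R := by
  have h1 : (m : ℤ) ≤ l := by exact_mod_cast h
  have h0 : (0 : ℤ) ≤ m := by positivity
  exact ⟨mul_nonneg h0 hW, mul_le_mul h1 hWR hW (by positivity)⟩

theorem St_inn {π : Par} {k x y : ℕ} (h : π.St k x y) {m m' : ℕ} (hm : m ≤ π.l)
    (hm' : m' ≤ π.l) {e : ℤ} (h0 : 0 ≤ e) (h1 : e ≤ π.R) :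
    Inn π ((x : ℤ) + m * ((π.R : ℤ) - 2 * π.fx k))
      ((y : ℤ) - π.R + e - m' * ((π.R : ℤ) - 2 * π.fy k)) := by
  obtain ⟨hc, -, hx, hy, hs, -⟩ := h
  have a1 := hc.two_fx
  have a2 := hc.two_fy
  have a3 := hc.R_ge
  have a4 := hc.fx_pos
  have a5 := hc.fy_pos
  obtain ⟨b1, b2⟩ := mul_bd (m := m) (l := π.l) (W := (π.R : ℤ) - 2 * π.fx k) (R := π.R)
    (by linarith) (by linarith) hm
  obtain ⟨c1, c2⟩ := mul_bd (m := m') (l := π.l) (W := (π.R : ℤ) - 2 * π.fy k) (R := π.R)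
    (by linarith) (by linarith) hm'
  have hx' : ((4 * π.l + 8) * π.R : ℤ) ≤ x := by
    have : (((4 * π.l + 8) * π.R : ℕ) : ℤ) ≤ x := by exact_mod_cast hx
    push_cast at this
    exact this
  have hy' : ((4 * π.l + 8) * π.R : ℤ) ≤ y := by
    have : (((4 * π.l + 8) * π.R : ℕ) : ℤ) ≤ y := by exact_mod_cast hy
    push_cast at this
    exact this
  have hs' : (x : ℤ) + y + (4 * π.l + 8) * π.R ≤ π.M := by
    have : ((x + y + (4 * π.l + 8) * π.R : ℕ) : ℤ) ≤ (π.M : ℕ) := by exact_mod_cast hs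
    push_cast at this
    exact this
  have hlR : (0 : ℤ) ≤ (π.l : ℤ) * π.R := by positivity
  refine ⟨a3, by nlinarith, by nlinarith, by nlinarith⟩

theorem tcell_inn {π : Par} {k x y t : ℕ} (h : π.St k x y) (h1 : 1 ≤ t) (h2 : t ≤ 2 * π.l + 1) :
    Inn π (tcell π k x y t).1 (tcell π k x y t).2 := by
  rw [tc_fst, tc_snd π k x y h1]
  exact St_inn h (by omega) (by omega) (h.1.fy_pos).le (by linarith [h.1.two_fy, h.1.fy_pos])

theorem start_inn {π : Par} {k x y : ℕ} (h : π.St k x y) : Inn π x y := by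
  have := St_inn h (m := 0) (m' := 0) (by omega) (by omega) (e := π.R) (by positivity) le_rfl
  simpa using this

theorem end_inn {π : Par} {k x y : ℕ} (h : π.St k x y) :
    Inn π (π.pp k x y π.l).1 (π.pp k x y π.l).2 := by
  have := St_inn h (m := π.l) (m' := π.l) le_rfl le_rfl (e := 0) le_rfl (by positivity)
  simpa [Par.pp] using this

/-- an obstacle to the right in a row -/
theorem obst_right {R c : ℤ} (hR : 0 < R) (i j : ℤ) : ∃ a, i < a ∧ a ≤ i + R ∧ R ∣ a - c * j := by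
  refine ⟨i + 1 + (c * j - i - 1) % R, ?_, ?_, ?_⟩
  · have := Int.emod_nonneg (c * j - i - 1) hR.ne'
    omega
  · have := Int.emod_lt_of_pos (c * j - i - 1) hR
    omega
  · have := Int.emod_add_mul_ediv (c * j - i - 1) R
    exact ⟨-((c * j - i - 1) / R), by linear_combination this⟩

theorem obst_left {R c : ℤ} (hR : 0 < R) (i j : ℤ) : ∃ a, i - R ≤ a ∧ a < i ∧ R ∣ a - c * j := by
  obtain ⟨a, h1, h2, h3⟩ := obst_right (c := c) hR (i - R - 1) j
  exact ⟨a, by omega, by omega, h3⟩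

theorem dvd_swap {R c i j : ℤ} (hc : R ∣ c * c - 1) (h : R ∣ j - c * i) : R ∣ i - c * j := by
  obtain ⟨u, hu⟩ := hc
  obtain ⟨w, hw⟩ := h
  exact ⟨-c * w - u * i, by linear_combination (-c) * hw - i * hu⟩

theorem obst_up {R c : ℤ} (hR : 0 < R) (hc : R ∣ c * c - 1) (i j : ℤ) :
    ∃ b, j < b ∧ b ≤ j + R ∧ R ∣ i - c * b := by
  obtain ⟨b, h1, h2, h3⟩ := obst_right (c := c) hR j i
  exact ⟨b, h1, h2, dvd_swap hc h3⟩

theorem obst_down {R c : ℤ} (hR : 0 < R) (hc : R ∣ c * c - 1) (i j : ℤ) :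
    ∃ b, j - R ≤ b ∧ b < j ∧ R ∣ i - c * b := by
  obtain ⟨b, h1, h2, h3⟩ := obst_left (c := c) hR j i
  exact ⟨b, h1, h2, dvd_swap hc h3⟩

/-- in a strip a right end is not to the left of a left end -/
theorem strip_aux {R B B' o o' i i' : ℤ} (hd : R ∣ B - B') (ho : 0 < o) (ho2 : 2 * o < R)
    (ho' : 0 < o') (ho2' : 2 * o' < R) (hi : i = B + (R - o)) (hi' : i' = B' + o')
    (hlt : i < i') : i < B' ∧ B' < i' := by
  refine ⟨?_, by linarith⟩
  by_contra hcon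
  push Not at hcon
  have h1 : B - B' = 0 := by
    refine eq_of_dvd_lt hd ?_ ?_ <;> linarith
  linarith

end Pool.Agent.Helper58.DG3
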