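import Pool.Agent.Helper49.DG3.DkMain
import Pool.Agent.Helper84.DG3.Thread

/-!
# Threads: the facts about the good vertices without the hypothesis on the positions
-/

set_option autoImplicit false

namespace Pool.Agent.Helper58.DG3

open Pool.Agent.Helper18.RAC
open Pool.Agent.Helper82.DG (NE)

variable {V : Type*} {H : SimpleGraph V} {X Y : V → ℝ} {E F : ℝ} {κ : GX → V} {π : Par}

/-- the positions of the vertices of the threads -/
theorem Net.tpos (hn : Net H X Y E F κ π) (hg : HasGrid H κ π) : TPos X Y κ π where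
  mid := fun _ _ _ _ h h1 h2 => hn.thread hg h h1 h2
  st := fun _ _ _ h => (hn.thread0 hg h).1
  en := fun _ _ _ h => (hn.thread1 hg h).1

/-- the good vertices are in the cell `NE` -/
theorem Net.t_mem (hn : Net H X Y E F κ π) (hg : HasGrid H κ π) {x : GN} (h : Dk π x) :
    NE X Y (κ (.v x)) := hn.dk_mem (hn.tpos hg) h

/-- the neighbours of the good vertices are in the cell `NE` -/
theorem Net.t_nbr (hn : Net H X Y E F κ π) (hg : HasGrid H κ π) {x : GN} (h : Dk π x) {v : V}
    (hv : H.Adj (κ (.v x)) v) : NE X Y v := hn.dk_nbr (hn.tpos hg) h hv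

/-- the edges between the good vertices are the links -/
theorem Net.t_dd (hn : Net H X Y E F κ π) (hg : HasGrid H κ π) {x y : GN} (hx : Dk π x)
    (hy : Dk π y) (hxy : H.Adj (κ (.v x)) (κ (.v y))) :
    ∃ c : GE, c.isl π ∧ s(κ (.v x), κ (.v y)) = s(κ (c.ends π).1, κ (c.ends π).2) :=
  hn.dk_dd hg (hn.tpos hg) hx hy hxy

/-- a vertex has at most nine good neighbours -/
theorem Net.t_cnt (hn : Net H X Y E F κ π) (hg : HasGrid H κ π) (v : V) :
    ∃ g : GN → Fin 9, ∀ x y, Dk π x → Dk π y → H.Adj (κ (.v x)) v → H.Adj (κ (.v y)) v →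
      g x = g y → x = y := hn.dk_cnt hg (hn.tpos hg) v

end Pool.Agent.Helper58.DG3
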