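import Pool.Agent.Helper58.DG3.Part3

/-!
# Threads: the layout exists
-/

set_option autoImplicit false

namespace Pool.Agent.Helper58.DG3

open Pool.Agent.Helper18.RAC Complex

/-- the layout exists -/
theorem exists_layD {n m K : ℕ} {π : Par} (hm : K + 2 ≤ m) (hD : 4 ≤ π.D) (hM : 8 ≤ π.M)
    (hn : 2 + m + K * π.A = n) :
    ∃ (a b : Fin n) (p : ℕ → Fin n) (κ : ℕ → GX → Fin n), LayD a b p κ m K π := by
  classical
  have hm0 : 0 < m := by omega
  have : Fintype {x : GN // x.ok π} := Fintype.ofFinite _
  have hcard : Fintype.card (Bool ⊕ (Fin m ⊕ (Fin K × {x : GN // x.ok π}))) = n := by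
    rw [Fintype.card_sum, Fintype.card_sum, Fintype.card_prod, Fintype.card_bool,
      Fintype.card_fin, Fintype.card_fin, ← hn, Par.A, Nat.card_eq_fintype_card]
    ring
  let e : (Bool ⊕ (Fin m ⊕ (Fin K × {x : GN // x.ok π}))) ≃ Fin n :=
    Fintype.equivFinOfCardEq hcard
  let a : Fin n := e (.inl true)
  let b : Fin n := e (.inl false)
  let p : ℕ → Fin n := fun j => e (.inr (.inl ⟨j % m, Nat.mod_lt _ hm0⟩))
  let w : ℕ → GN → Fin n := fun i x =>
    if h : i < K ∧ x.ok π then e (.inr (.inr (⟨i, h.1⟩, ⟨x, h.2⟩))) else a
  let κ : ℕ → GX → Fin n := fun i y =>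
    match y with
    | .X false => if i % 2 = 0 then b else a
    | .X true => p (i + 2)
    | .Y false => p (i + 1)
    | .Y true => p i
    | .v x => w i x
  have hw : ∀ i (h : i < K) x (hx : x.ok π), w i x = e (.inr (.inr (⟨i, h⟩, ⟨x, hx⟩))) := by
    intro i h x hx
    change (if h : i < K ∧ x.ok π then e (.inr (.inr (⟨i, h.1⟩, ⟨x, h.2⟩))) else a) = _
    rw [dif_pos ⟨h, hx⟩]
  refine ⟨a, b, p, κ, ?_⟩
  exact
    { ab := by
        intro h
        have := e.injective h
        simp at this
      pa := by
        intro j hj h
        have := e.injective h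
        simp at this
      pb := by
        intro j hj h
        have := e.injective h
        simp at this
      pinj := by
        intro i hi j hj h
        have h1 := e.injective h
        simp only [Sum.inr.injEq, Sum.inl.injEq, Fin.mk.injEq] at h1
        rwa [Nat.mod_eq_of_lt hi, Nat.mod_eq_of_lt hj] at h1
      hm := hm
      hD := hD
      hM := hM
      kN := fun i hi => rfl
      kE := fun i hi => rfl
      kW := fun i hi => rfl
      kS := fun i hi => rfl
      nc := by
        intro i hi x hx
        change w i x ≠ a ∧ w i x ≠ b ∧ ∀ j < m, w i x ≠ p j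
        rw [hw i hi x hx]
        refine ⟨?_, ?_, ?_⟩
        · intro h
          have := e.injective h
          simp at this
        · intro h
          have := e.injective h
          simp at this
        · intro j hj h
          have := e.injective h
          simp at this
      kinj := by
        intro i hi i' hi' x y hx hy h
        change w i x = w i' y at h
        rw [hw i hi x hx, hw i' hi' y hy] at h
        have h1 := e.injective h
        simp only [Sum.inr.injEq, Prod.mk.injEq, Fin.mk.injEq, Subtype.mk.injEq] at h1
        exact h1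
      cov := by
        intro v
        obtain ⟨u, rfl⟩ := e.surjective v
        rcases u with (_ | _) | j | ⟨i, g⟩
        · exact Or.inr (Or.inl rfl)
        · exact Or.inl rfl
        · refine Or.inr (Or.inr (Or.inl ⟨j, j.2, ?_⟩))
          change _ = e _
          congr 3
          exact Fin.ext (Nat.mod_eq_of_lt j.2).symm
        · refine Or.inr (Or.inr (Or.inr ⟨i, i.2, g.1, g.2, ?_⟩))
          change _ = w i g.1
          rw [hw i i.2 g.1 g.2] }

end Pool.Agent.Helper58.DG3
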