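import Pool.Agent.Helper49.DG3.DkPos
import Pool.Agent.Helper82.DG3.NetOf
import Pool.Agent.Helper91.DG3.KCell
import Pool.Agent.Helper96.DG3.Good

/-!
# Threads: a drawn grid is a good kite
-/

set_option autoImplicit false

namespace Pool.Agent.Helper58.DG3

open Pool.Agent.Helper18.RAC Complex
open Pool.Agent.Helper82.DG (NE SE NW SW Fr CoreH)

variable {V : Type*}

/-- **A drawn grid is a good kite.** -/
theorem gdraw_good {H : SimpleGraph V} {a b : V} {κ : GX → V} {π : Par} (hD : 4 ≤ π.D)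
    (hg : HasGrid H κ π) : GDGood H a b κ π := by
  intro f X Y E F a' b' hf hfr h hcore
  have hn : Net H (fun v => X (f v)) (fun v => Y (f v)) E F κ π := h.toNet (by omega)
  exact gdraw_good_of hf hfr h hcore (fun x hx => hn.t_mem hg hx)
    (fun x v hx hv => Or.inl (hn.t_nbr hg hx hv)) (fun x y hx hy hxy => hn.t_dd hg hx hy hxy)
    (fun v => hn.t_cnt hg v)

/-- the good kites in a normalised drawing -/
theorem good_kites {a b : V} {p : ℕ → V} {κ : ℕ → GX → V} {m K : ℕ} {π : Par}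
    (hl : LayD a b p κ m K π) {H : SimpleGraph V} (hle : GDt a b p κ m π K ≤ H) {g : V → ℂ}
    (hg : Nm H g a b) : ∃ B : Finset ℕ, B.card ≤ 10 ∧ ∀ i, 19 ≤ i → i + 20 ≤ K →
      (∀ j, i ≤ j + 19 → j ≤ i + 21 → j ∉ B) →
      ∃ A₀ A₁ A₂, GoodK H g a b (κ i) π A₀ A₁ A₂ :=
  good_kites_of hl hle hg fun _ _ h => gdraw_good hl.hD h

end Pool.Agent.Helper58.DG3
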