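import Pool.Agent.Helper58.DG3.Base

/-!
# Threads: the set of names is finite
-/

set_option autoImplicit false

namespace Pool.Agent.Helper58.DG3

theorem GN.ok_finite (π : Par) : {x : GN | x.ok π}.Finite := by
  have h : ({x : GN | x.ok π}) ⊆
      (Set.range fun z : Bool × Fin (2 * π.M) => GN.P z.1 z.2) ∪
      ((Set.range fun z : Bool × Fin π.M => GN.U z.1 z.2) ∪
      ((Set.range fun z : Bool × Fin (2 * π.M) × Bool => GN.C z.1 z.2.1 z.2.2) ∪
      ((Set.range fun z : Bool => GN.Q z) ∪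
      ((Set.range fun z : Fin π.M × Fin π.M => GN.D z.1 z.2) ∪
      ((Set.range fun z : Fin π.M × Fin π.M => GN.F z.1 z.2) ∪
      (Set.range fun z : Fin (π.D + 1) × Fin (π.M + 1) × Fin (π.M + 1) × Fin (2 * π.l + 2) =>
        GN.T z.1 z.2.1 z.2.2.1 z.2.2.2)))))) := by
    intro x hx
    cases x with
    | P σ j =>
      exact Or.inl ⟨(σ, ⟨j, hx⟩), rfl⟩
    | U σ c =>
      exact Or.inr (Or.inl ⟨(σ, ⟨c, hx⟩), rfl⟩)
    | C σ j ε =>
      have hx' : j + 1 < 2 * π.M := hx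
      exact Or.inr (Or.inr (Or.inl ⟨(σ, ⟨j, by omega⟩, ε), rfl⟩))
    | Q ε =>
      exact Or.inr (Or.inr (Or.inr (Or.inl ⟨ε, rfl⟩)))
    | D c r =>
      exact Or.inr (Or.inr (Or.inr (Or.inr (Or.inl ⟨(⟨c, hx.1⟩, ⟨r, hx.2.1⟩), rfl⟩))))
    | F c r =>
      obtain ⟨h1, h2, h3, h4⟩ := hx
      exact Or.inr (Or.inr (Or.inr (Or.inr (Or.inr (Or.inl
        ⟨(⟨c, by omega⟩, ⟨r, by omega⟩), rfl⟩)))))
    | T k x y t =>
      obtain ⟨⟨⟨h1, h1'⟩, h2, h3, h4, h5, h6⟩, h7⟩ := hx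
      exact Or.inr (Or.inr (Or.inr (Or.inr (Or.inr (Or.inr
        ⟨(⟨k, by omega⟩, ⟨x, by omega⟩, ⟨y, by omega⟩, ⟨t, by omega⟩), rfl⟩)))))
  refine Set.Finite.subset ?_ h
  exact (Set.finite_range _).union ((Set.finite_range _).union ((Set.finite_range _).union
    ((Set.finite_range _).union ((Set.finite_range _).union ((Set.finite_range _).union
      (Set.finite_range _))))))

/-- the number of the names of one grid -/
noncomputable def Par.A (π : Par) : ℕ := Nat.card {x : GN // x.ok π}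

instance (π : Par) : Finite {x : GN // x.ok π} := (GN.ok_finite π).to_subtype

theorem Par.A_eq (π : Par) : π.A = {x : GN | x.ok π}.ncard := rfl

end Pool.Agent.Helper58.DG3
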